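import Mathlib
import Pool.Agent.helper62.K3.Defs

/-!
# HK: module VA, uniform freeness
-/

set_option autoImplicit false

noncomputable section

namespace Pool.Agent.helper62.K3

section
variable {X G : Type} [MetricSpace X] [CompactSpace X] [Group G] [Finite G] [MulAction G X]

lemma VA_one (iso : ∀ g : G, Isometry (fun x : X => g • x)) (F : Set X)
    (hfree : ∀ x, x ∉ F → ∀ g : G, g • x = x → g = 1) (ρ : ℝ) (hρ : 0 < ρ) (g : G) (hg : g ≠ 1) :
    ∃ θ > 0, ∀ x : X, (∀ p ∈ F, ρ ≤ dist x p) → θ ≤ dist (g • x) x := by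
  have hclosed : IsClosed {x : X | ∀ p ∈ F, ρ ≤ dist x p} := by
    have : {x : X | ∀ p ∈ F, ρ ≤ dist x p} = ⋂ p ∈ F, {x : X | ρ ≤ dist x p} := by
      ext x
      simp
    rw [this]
    exact isClosed_biInter fun p _ => isClosed_le continuous_const (continuous_id.dist continuous_const)
  have hcomp := hclosed.isCompact
  by_cases hne : {x : X | ∀ p ∈ F, ρ ≤ dist x p}.Nonempty
  · have hc : Continuous (fun x : X => dist (g • x) x) := (iso g).continuous.dist continuous_id
    obtain ⟨x0, hx0, hmin⟩ := hcomp.exists_isMinOn hne hc.continuousOn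
    refine ⟨dist (g • x0) x0, ?_, fun x hx => hmin hx⟩
    have hx0F : x0 ∉ F := by
      intro h
      have := hx0 x0 h
      rw [dist_self] at this
      linarith
    exact dist_pos.mpr fun h => hg (hfree x0 hx0F g h)
  · exact ⟨1, one_pos, fun x hx => absurd ⟨x, hx⟩ hne⟩

/-- hk:VA uniform freeness -/
theorem VA (iso : ∀ g : G, Isometry (fun x : X => g • x)) (F : Set X) (hF : F.Finite)
    (hfree : ∀ x, x ∉ F → ∀ g : G, g • x = x → g = 1) (ρ : ℝ) (hρ : 0 < ρ) :
    ∃ θ > 0, ∀ x : X, (∀ p ∈ F, ρ ≤ dist x p) → ∀ g : G, g ≠ 1 → θ ≤ dist (g • x) x := by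
  classical
  have _ := hF
  have : Fintype G := Fintype.ofFinite G
  have h : ∀ g : G, ∃ θ > 0, g ≠ 1 → ∀ x : X, (∀ p ∈ F, ρ ≤ dist x p) → θ ≤ dist (g • x) x := by
    intro g
    by_cases hg : g = 1
    · exact ⟨1, one_pos, fun h => absurd hg h⟩
    · obtain ⟨θ, hθ, h⟩ := VA_one iso F hfree ρ hρ g hg
      exact ⟨θ, hθ, fun _ => h⟩
  choose θ hθ h using h
  refine ⟨Finset.univ.inf' ⟨1, Finset.mem_univ _⟩ θ, ?_, ?_⟩
  · rw [gt_iff_lt, Finset.lt_inf'_iff]
    exact fun g _ => hθ g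
  · intro x hx g hg
    exact (Finset.inf'_le θ (Finset.mem_univ g)).trans (h g hg x hx)

end

end Pool.Agent.helper62.K3
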