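import Mathlib
import Pool.Agent.helper62.K3.Defs
import Pool.Agent.helper81.HK.VA

/-!
# HK: module VC, invariant local order
-/

set_option autoImplicit false

noncomputable section

namespace Pool.Agent.helper62.K3

section
variable {X G : Type} [MetricSpace X] [CompactSpace X] [Group G] [Finite G] [MulAction G X]

open scoped Classical in
/-- hk:VC invariant local order -/
theorem VC (iso : ∀ g : G, Isometry (fun x : X => g • x)) (F : Set X) (hF : F.Finite)
    (hfree : ∀ x, x ∉ F → ∀ g : G, g • x = x → g = 1) (K : Subgroup G) (ρ : ℝ) (hρ : 0 < ρ) :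
    ∃ (L : Type) (_ : LinearOrder L) (key : X → L), (∀ g ∈ K, ∀ x, key (g • x) = key x) ∧
      ∃ δ > 0, ∀ σ : Finset X, Small δ σ → ¬ Near F ρ σ → Set.InjOn key (↑σ : Set X) := by
  obtain ⟨θ, hθ, hθ2⟩ := VA iso F hF hfree (ρ / 2) (by linarith)
  refine ⟨MulAction.orbitRel.Quotient K X, linearOrderOfSTO WellOrderingRel,
    fun x => Quotient.mk _ x, ?_, min θ (ρ / 2), lt_min hθ (by linarith), ?_⟩
  · intro g hg x
    refine Quotient.sound ?_
    change (MulAction.orbitRel K X) _ _
    rw [MulAction.orbitRel_apply]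
    exact ⟨⟨g, hg⟩, rfl⟩
  · intro σ hσ hnear x hx y hy hxy
    have h1 : (MulAction.orbitRel K X) x y := Quotient.exact hxy
    rw [MulAction.orbitRel_apply] at h1
    obtain ⟨⟨g, hg⟩, hgx⟩ := h1
    change g • y = x at hgx
    have hfar : ∀ p ∈ F, ρ / 2 ≤ dist y p := by
      unfold Near at hnear
      push Not at hnear
      obtain ⟨x0, hx0, hx0p⟩ := hnear
      intro p hp
      have h2 := hx0p p hp
      have h3 := hσ x0 hx0 y (Finset.mem_coe.mp hy)
      have h4 := dist_triangle x0 y p
      have h5 := min_le_right θ (ρ / 2)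
      linarith
    by_contra hne
    have hg1 : g ≠ 1 := by
      rintro rfl
      rw [one_smul] at hgx
      exact hne hgx.symm
    have h2 := hθ2 y hfar g hg1
    rw [hgx] at h2
    have h3 := hσ x (Finset.mem_coe.mp hx) y (Finset.mem_coe.mp hy)
    have h5 := min_le_left θ (ρ / 2)
    linarith

end

end Pool.Agent.helper62.K3
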