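import Pool.Agent.helper36.HK.Spec

/-! # HK: SRF -/

set_option autoImplicit false

namespace Pool.Agent.HK

open Finset Pool.Agent.FI

private theorem SRF_mem (hSIZ : SIZ_stmt) (u : ℕ) (z : ℤ × ℤ) : z ∈ FF u ↔ Fd z ∧ nn z ≤ u := by
  classical
  unfold FF
  rw [mem_filter, mem_product, mem_Icc, mem_Icc]
  constructor
  · rintro ⟨_, h⟩
    exact h
  · intro h
    obtain ⟨h1, h2, h3, _⟩ := hSIZ z h.1
    have h4 : (nn z : ℤ) ≤ u := by exact_mod_cast h.2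
    have h5 : (0 : ℤ) < nn z := by exact_mod_cast h3
    refine ⟨⟨⟨?_, ?_⟩, ?_, ?_⟩, h⟩ <;> nlinarith

private theorem SRF_fib (hSIZ : SIZ_stmt) (n y : ℕ) (hn : n ≤ y) :
    ((FF n).filter fun z => nn z = n) = (FF y).filter fun z => nn z = n := by
  ext z
  rw [mem_filter, mem_filter, SRF_mem hSIZ, SRF_mem hSIZ]
  constructor
  · rintro ⟨⟨h1, _⟩, h2⟩
    exact ⟨⟨h1, by omega⟩, h2⟩
  · rintro ⟨⟨h1, _⟩, h2⟩
    exact ⟨⟨h1, by omega⟩, h2⟩

private theorem SRF_maps (hSIZ : SIZ_stmt) (y : ℕ) : ∀ z ∈ FF y, nn z ∈ Ioc 0 y := by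
  intro z hz
  rw [SRF_mem hSIZ] at hz
  rw [mem_Ioc]
  exact ⟨(hSIZ z hz.1).2.2.1, hz.2⟩

/-- **SRF** -/
theorem SRF (hSIZ : SIZ_stmt) (hFFC : FFC_stmt) : SRF_stmt := by
  refine ⟨?_, ?_, ?_⟩
  · intro F y
    rw [← sum_fiberwise_of_maps_to (SRF_maps hSIZ y) F]
    refine sum_congr rfl fun n hn => ?_
    rw [mem_Ioc] at hn
    unfold rf
    rw [SRF_fib hSIZ n y hn.2]
  · intro F hF y
    have h1 : ∀ n ∈ Ioc 0 y, ‖rf F n‖ ≤ ∑ z ∈ FF y with nn z = n, (1 : ℝ) := by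
      intro n hn
      rw [mem_Ioc] at hn
      unfold rf
      rw [SRF_fib hSIZ n y hn.2]
      refine (norm_sum_le _ _).trans (sum_le_sum fun z hz => ?_)
      rw [mem_filter, SRF_mem hSIZ] at hz
      exact hF z hz.1.1.1
    calc ∑ n ∈ Ioc 0 y, ‖rf F n‖ ≤ ∑ n ∈ Ioc 0 y, ∑ z ∈ FF y with nn z = n, (1 : ℝ) :=
          sum_le_sum h1
      _ = ∑ z ∈ FF y, (1 : ℝ) := sum_fiberwise_of_maps_to (SRF_maps hSIZ y) fun _ => (1 : ℝ)
      _ = ((FF y).card : ℝ) := by rw [sum_const, nsmul_eq_mul, mul_one]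
      _ ≤ 25 * y := (hFFC y).1
  · intro F u
    unfold PS
    rw [← sum_fiberwise_of_maps_to (g := fun z => nn z) (t := (Ioc 0 u).filter Nat.Prime)
      (by
        intro z hz
        rw [mem_filter] at hz
        rw [mem_filter]
        exact ⟨SRF_maps hSIZ u z hz.1, hz.2⟩)]
    refine sum_congr rfl fun p hp => ?_
    rw [mem_filter, mem_Ioc] at hp
    unfold rf
    rw [SRF_fib hSIZ p u hp.1.2, mul_sum]
    refine sum_congr ?_ ?_
    · ext z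
      rw [mem_filter, mem_filter, mem_filter]
      constructor
      · rintro ⟨⟨h1, _⟩, h2⟩
        exact ⟨h1, h2⟩
      · rintro ⟨h1, h2⟩
        exact ⟨⟨h1, by rw [h2]; exact hp.2⟩, h2⟩
    · intro z hz
      rw [(mem_filter.1 hz).2]

end Pool.Agent.HK
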