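import Mathlib
import Pool.Agent.helper62.K3.Defs

/-!
# HK: module P7, the surface `X0` is connected
-/

set_option autoImplicit false

noncomputable section

namespace Pool.Agent.helper62.K3

open Complex

/-- The square root of an affine path. -/
lemma P7_sqrt (a b x : ℂ) (hx : x ^ 2 = a) : ∃ g : ℝ → ℂ, ContinuousOn g (Set.Icc 0 1) ∧
    g 0 = x ∧ ∀ t ∈ Set.Icc (0 : ℝ) 1, g t ^ 2 = (1 - (t : ℂ)) * a + (t : ℂ) * b := by
  by_cases ha : a = 0
  · subst ha
    have hx0 : x = 0 := by simpa using hx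
    subst hx0
    obtain ⟨w, hw⟩ := IsAlgClosed.exists_pow_nat_eq b (n := 2) (by norm_num)
    refine ⟨fun t => ((Real.sqrt t : ℝ) : ℂ) * w, ?_, by simp, ?_⟩
    · exact ((continuous_ofReal.comp Real.continuous_sqrt).mul continuous_const).continuousOn
    · intro t ht
      simp only [mul_pow, mul_zero, zero_add, hw]
      rw [← ofReal_pow, Real.sq_sqrt ht.1]
  · set c : ℂ := b / a with hc
    have hb : b = a * c := by rw [hc]; field_simp
    by_cases hcs : c ∈ slitPlane
    · refine ⟨fun t => x * ((1 - (t : ℂ) + (t : ℂ) * c) ^ ((1 / 2 : ℝ) : ℂ)), ?_, ?_, ?_⟩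
      · refine ContinuousOn.mul continuousOn_const ?_
        refine ContinuousOn.cpow_const ?_ ?_
        · fun_prop
        · intro t ht
          by_cases h1 : t = 0
          · subst h1
            simp
          have ht0 : 0 < t := lt_of_le_of_ne ht.1 (Ne.symm h1)
          rw [mem_slitPlane_iff] at hcs ⊢
          simp only [add_re, sub_re, one_re, ofReal_re, mul_re, ofReal_im, zero_mul, sub_zero,
            add_im, sub_im, one_im, mul_im, add_zero, zero_add]
          rcases hcs with h | h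
          · left
            nlinarith [ht.2, mul_pos ht0 h]
          · right
            exact mul_ne_zero h1 h
      · simp
      · intro t _
        rw [mul_pow, hx, ← cpow_nat_mul]
        norm_num
        rw [hb]
        ring
    · rw [mem_slitPlane_iff, not_or, not_lt, not_not] at hcs
      have hcr : c = ((c.re : ℝ) : ℂ) := by
        apply Complex.ext <;> simp [hcs.2]
      set r : ℝ := c.re with hr
      refine ⟨fun t => x * (((Real.sqrt (1 - t + t * r) : ℝ) : ℂ) +
        I * ((Real.sqrt (-(1 - t + t * r)) : ℝ) : ℂ)), ?_, ?_, ?_⟩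
      · fun_prop
      · simp [Real.sqrt_eq_zero_of_nonpos (x := (-1 : ℝ)) (by norm_num)]
      · intro t _
        rw [mul_pow, hx]
        have key : (((Real.sqrt (1 - t + t * r) : ℝ) : ℂ) +
            I * ((Real.sqrt (-(1 - t + t * r)) : ℝ) : ℂ)) ^ 2 = ((1 - t + t * r : ℝ) : ℂ) := by
          rcases le_total 0 (1 - t + t * r) with h | h
          · rw [Real.sqrt_eq_zero_of_nonpos (x := -(1 - t + t * r)) (by linarith)]
            simp only [ofReal_zero, mul_zero, add_zero]
            rw [← ofReal_pow, Real.sq_sqrt h]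
          · rw [Real.sqrt_eq_zero_of_nonpos h]
            simp only [ofReal_zero, zero_add, mul_pow, I_sq]
            rw [← ofReal_pow, Real.sq_sqrt (by linarith)]
            push_cast
            ring
        rw [key, hb, hcr]
        push_cast
        ring

lemma P7_mem {z : Fin 6 → ℂ} (h0 : z ≠ 0) (h : (fun i => z i ^ 2) ∈ KK) : z ∈ Cone := ⟨h0, h⟩

lemma P7_sq {z : Fin 6 → ℂ} (h : z ∈ Cone) : (fun i => z i ^ 2) ∈ KK := h.2

lemma P7_comb {y y' : Fin 6 → ℂ} (hy : y ∈ KK) (hy' : y' ∈ KK) (s t : ℂ) :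
    (fun i => s * y i + t * y' i) ∈ KK := by
  intro m
  have h1 := hy m
  have h2 := hy' m
  have : ∑ i : Fin 6, ((i : ℕ) : ℂ) ^ (m : ℕ) * (s * y i + t * y' i) =
      s * ∑ i : Fin 6, ((i : ℕ) : ℂ) ^ (m : ℕ) * y i +
        t * ∑ i : Fin 6, ((i : ℕ) : ℂ) ^ (m : ℕ) * y' i := by
    rw [Finset.mul_sum, Finset.mul_sum, ← Finset.sum_add_distrib]
    refine Finset.sum_congr rfl fun i _ => ?_
    ring
  rw [this, h1, h2]
  ring

lemma P7_smul_mem {z : Fin 6 → ℂ} (h : z ∈ Cone) {c : ℂ} (hc : c ≠ 0) :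
    (fun i => c * z i) ∈ Cone := by
  refine P7_mem ?_ ?_
  · intro h0
    apply h.1
    funext i
    have := congrFun h0 i
    simp only [Pi.zero_apply, mul_eq_zero, hc, false_or] at this
    exact this
  · have := P7_comb (P7_sq h) (P7_sq h) (c ^ 2) 0
    simpa [mul_pow] using this

/-- Scalar multiples are joined. -/
lemma P7_scal {z : Fin 6 → ℂ} (h : z ∈ Cone) {c : ℂ} (hc : c ≠ 0) :
    JoinedIn Cone z (fun i => c * z i) := by
  have h1 : IsPathConnected ({0}ᶜ : Set ℂ) :=
    isPathConnected_compl_singleton_of_one_lt_rank (by simp) 0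
  have h2 : JoinedIn ({0}ᶜ : Set ℂ) 1 c := h1.joinedIn 1 (by simp) c (by simpa using hc)
  have h3 := h2.map_continuousOn (f := fun c : ℂ => fun i : Fin 6 => c * z i)
    (by fun_prop)
  have h4 : JoinedIn Cone (fun i => 1 * z i) (fun i => c * z i) := by
    refine h3.mono ?_
    rintro _ ⟨d, hd, rfl⟩
    exact P7_smul_mem h (by simpa using hd)
  simpa using h4

/-- Every point of the cone is joined to some square root of a given point of `KK`. -/
lemma P7_lift {x : Fin 6 → ℂ} (hx : x ∈ Cone) {y' : Fin 6 → ℂ} (hy' : y' ∈ KK) (h0 : y' ≠ 0) :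
    ∃ z, (∀ i, z i ^ 2 = y' i) ∧ JoinedIn Cone x z := by
  by_cases hseg : ∀ t ∈ Set.Icc (0 : ℝ) 1,
      (fun i => (1 - (t : ℂ)) * x i ^ 2 + (t : ℂ) * y' i) ≠ 0
  · choose g hg hg0 hg2 using fun i => P7_sqrt (x i ^ 2) (y' i) (x i) rfl
    refine ⟨fun i => g i 1, fun i => ?_, ?_⟩
    · have := hg2 i 1 ⟨zero_le_one, le_refl 1⟩
      rw [this]
      push_cast
      ring
    · refine JoinedIn.ofLine (f := fun t i => g i t) ?_ ?_ rfl ?_
      · exact continuousOn_pi.mpr hg
      · funext i
        exact hg0 i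
      · rintro _ ⟨t, ht, rfl⟩
        have hsq : (fun i => g i t ^ 2) =
            fun i => (1 - (t : ℂ)) * x i ^ 2 + (t : ℂ) * y' i := by
          funext i
          exact hg2 i t ht
        refine P7_mem ?_ ?_
        · intro h
          apply hseg t ht
          rw [← hsq]
          funext i
          have := congrFun h i
          simp only [Pi.zero_apply] at this ⊢
          rw [this]
          ring
        · rw [hsq]
          exact P7_comb (P7_sq hx) hy' _ _
  · push Not at hseg
    obtain ⟨t, ht, h⟩ := hseg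
    have ht0 : (t : ℂ) ≠ 0 := by
      intro h1
      apply hx.1
      funext i
      have := congrFun h i
      simp only [h1, Pi.zero_apply, sub_zero, one_mul, zero_mul, add_zero] at this
      simpa using this
    obtain ⟨w, hw⟩ := IsAlgClosed.exists_pow_nat_eq (-(1 - (t : ℂ)) / t) (n := 2) (by norm_num)
    have hy : ∀ i, y' i = w ^ 2 * x i ^ 2 := by
      intro i
      have := congrFun h i
      simp only [Pi.zero_apply] at this
      rw [hw]
      field_simp
      linear_combination this
    have hw0 : w ≠ 0 := by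
      intro h1
      apply h0
      funext i
      rw [hy i, h1]
      simp
    refine ⟨fun i => w * x i, fun i => ?_, P7_scal hx hw0⟩
    rw [hy i, mul_pow]

/-- Reflection. -/
def P7_ref (j : Fin 6) (z : Fin 6 → ℂ) : Fin 6 → ℂ := fun i => if i = j then - z i else z i

lemma P7_ref_mem (j : Fin 6) {z : Fin 6 → ℂ} (h : z ∈ Cone) : P7_ref j z ∈ Cone := by
  refine P7_mem ?_ ?_
  · intro h0
    apply h.1
    funext i
    have := congrFun h0 i
    unfold P7_ref at this
    split_ifs at this
    · simpa using this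
    · exact this
  · have : (fun i => P7_ref j z i ^ 2) = fun i => z i ^ 2 := by
      funext i
      unfold P7_ref
      split_ifs <;> ring
    rw [this]
    exact P7_sq h

lemma P7_ref_cont (j : Fin 6) : Continuous (P7_ref j) := by
  refine continuous_pi fun i => ?_
  unfold P7_ref
  split_ifs
  · exact (continuous_apply i).neg
  · exact continuous_apply i

/-- Points of `KK` with a vanishing coordinate. -/
lemma P7_pt (j : Fin 6) : ∃ y' ∈ KK, y' ≠ 0 ∧ y' j = 0 := by
  have main : ∀ v : Fin 6 → ℂ, (∀ m : Fin 3, ∑ i : Fin 6, ((i : ℕ) : ℂ) ^ (m : ℕ) * v i = 0) →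
      (∃ i, v i ≠ 0) → v j = 0 → ∃ y' ∈ KK, y' ≠ 0 ∧ y' j = 0 := by
    intro v h1 h2 h3
    obtain ⟨i, hi⟩ := h2
    exact ⟨v, h1, fun h => hi (by rw [h]; rfl), h3⟩
  fin_cases j
  · refine main ![0, 1, -3, 3, -1, 0] ?_ ⟨1, by simp⟩ (by simp)
    intro m
    fin_cases m <;> simp [Fin.sum_univ_succ] <;> norm_num
  · refine main ![0, 0, 1, -3, 3, -1] ?_ ⟨2, by simp⟩ (by simp)
    intro m
    fin_cases m <;> simp [Fin.sum_univ_succ] <;> norm_num
  · refine main ![1, -2, 0, 2, -1, 0] ?_ ⟨0, by simp⟩ (by simp)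
    intro m
    fin_cases m <;> simp [Fin.sum_univ_succ] <;> norm_num
  · refine main ![0, 1, -2, 0, 2, -1] ?_ ⟨1, by simp⟩ (by simp)
    intro m
    fin_cases m <;> simp [Fin.sum_univ_succ] <;> norm_num
  · refine main ![1, -3, 3, -1, 0, 0] ?_ ⟨0, by simp⟩ (by simp)
    intro m
    fin_cases m <;> simp [Fin.sum_univ_succ] <;> norm_num
  · refine main ![1, -3, 3, -1, 0, 0] ?_ ⟨0, by simp⟩ (by simp)
    intro m
    fin_cases m <;> simp [Fin.sum_univ_succ] <;> norm_num

lemma P7_joined_ref (j : Fin 6) {z : Fin 6 → ℂ} (h : z ∈ Cone) :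
    JoinedIn Cone z (P7_ref j z) := by
  obtain ⟨y', hy', h0, hj⟩ := P7_pt j
  obtain ⟨p, hp, hzp⟩ := P7_lift h hy' h0
  have hpj : p j = 0 := by
    have := hp j
    rw [hj] at this
    simpa using this
  have hrp : P7_ref j p = p := by
    funext i
    unfold P7_ref
    split_ifs with hi
    · rw [hi, hpj, neg_zero]
    · rfl
  have h2 := (hzp.map (P7_ref_cont j)).mono (V := Cone) (by
    rintro _ ⟨w, hw, rfl⟩
    exact P7_ref_mem j hw)
  rw [hrp] at h2
  exact hzp.trans h2.symm

open scoped Classical in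
lemma P7_joined_signs (A : Finset (Fin 6)) : ∀ {z : Fin 6 → ℂ}, z ∈ Cone →
    JoinedIn Cone z (fun i => if i ∈ A then - z i else z i) := by
  induction A using Finset.induction_on with
  | empty =>
    intro z hz
    simpa using JoinedIn.refl hz
  | insert j A hj ih =>
    intro z hz
    have h1 := ih hz
    have h2 := P7_joined_ref j h1.target_mem
    refine h1.trans ?_
    convert h2 using 1
    funext i
    unfold P7_ref
    by_cases hij : i = j
    · subst hij
      simp [hj]
    · simp [hij]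

lemma P7_joined {x y : Fin 6 → ℂ} (hx : x ∈ Cone) (hy : y ∈ Cone) : JoinedIn Cone x y := by
  classical
  have h0 : (fun i => y i ^ 2) ≠ 0 := by
    intro h
    apply hy.1
    funext i
    have := congrFun h i
    simpa using this
  obtain ⟨z, hz, hxz⟩ := P7_lift hx (P7_sq hy) h0
  have h1 := P7_joined_signs (Finset.univ.filter fun i => z i ≠ y i) hy
  have h2 : (fun i => if i ∈ (Finset.univ.filter fun i => z i ≠ y i) then - y i else y i) = z := by
    funext i
    by_cases hi : z i = y i
    · simp [hi]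
    · rcases sq_eq_sq_iff_eq_or_eq_neg.mp (hz i) with h | h
      · exact absurd h hi
      · simp only [Finset.mem_filter, Finset.mem_univ, true_and, hi, not_false_eq_true, ne_eq,
          if_true]
        exact h.symm
  rw [h2] at h1
  exact hxz.trans h1.symm

lemma P7_cone_nonempty : (Cone : Set (Fin 6 → ℂ)).Nonempty := by
  obtain ⟨y', hy', h0, -⟩ := P7_pt 0
  choose z hz using fun i => IsAlgClosed.exists_pow_nat_eq (y' i) (n := 2) (by norm_num)
  refine ⟨z, P7_mem ?_ ?_⟩
  · rintro rfl
    apply h0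
    funext i
    rw [← hz i]
    simp
  · have : (fun i => z i ^ 2) = y' := funext hz
    rw [this]
    exact hy'

lemma P7_norm_pos {x : Fin 6 → ℂ} (hx : x ≠ 0) : 0 < ∑ i, ‖x i‖ ^ 2 := by
  have h : ∃ i, x i ≠ 0 := by
    by_contra h
    push Not at h
    exact hx (funext h)
  obtain ⟨i, hi⟩ := h
  refine Finset.sum_pos' (fun i _ => by positivity) ⟨i, Finset.mem_univ _, ?_⟩
  have := norm_pos_iff.mpr hi
  positivity

/-- The map from the cone to `X0`. -/
def P7_map (x : Cone) : X0 :=
  ⟨fun i j => x.1 i * (starRingEnd ℂ) (x.1 j) / ((∑ k, ‖x.1 k‖ ^ 2 : ℝ) : ℂ), by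
    have hpos := P7_norm_pos x.2.1
    set s : ℝ := ∑ k, ‖x.1 k‖ ^ 2 with hs
    have hs0 : (((Real.sqrt s)⁻¹ : ℝ) : ℂ) ≠ 0 := by
      rw [ofReal_ne_zero]
      positivity
    refine ⟨fun i => (((Real.sqrt s)⁻¹ : ℝ) : ℂ) * x.1 i, P7_smul_mem x.2 hs0, ?_, ?_⟩
    · have : ∀ i, ‖(((Real.sqrt s)⁻¹ : ℝ) : ℂ) * x.1 i‖ ^ 2 = s⁻¹ * ‖x.1 i‖ ^ 2 := by
        intro i
        rw [norm_mul, mul_pow, norm_real, Real.norm_of_nonneg (by positivity), inv_pow,
          Real.sq_sqrt hpos.le]
      simp only [this]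
      rw [← Finset.mul_sum, ← hs, inv_mul_cancel₀ hpos.ne']
    · intro i j
      have h1 : ((Real.sqrt s : ℝ) : ℂ) * ((Real.sqrt s : ℝ) : ℂ) = (s : ℂ) := by
        rw [← ofReal_mul, Real.mul_self_sqrt hpos.le]
      have h2 : (s : ℂ) ≠ 0 := by exact_mod_cast hpos.ne'
      have h3 : ((Real.sqrt s : ℝ) : ℂ) ≠ 0 := by
        rw [ofReal_ne_zero]
        positivity
      rw [map_mul, conj_ofReal, ← h1]
      push_cast
      field_simp⟩

lemma P7_map_cont : Continuous P7_map := by
  refine Continuous.subtype_mk ?_ _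
  refine continuous_pi fun i => continuous_pi fun j => ?_
  refine Continuous.div ?_ ?_ ?_
  · exact ((continuous_apply i).comp continuous_subtype_val).mul
      (continuous_conj.comp ((continuous_apply j).comp continuous_subtype_val))
  · refine continuous_ofReal.comp ?_
    refine continuous_finsetSum _ fun k _ => ?_
    exact (continuous_norm.comp ((continuous_apply k).comp continuous_subtype_val)).pow 2
  · intro x
    have := P7_norm_pos x.2.1
    exact_mod_cast this.ne'

lemma P7_map_surj : Function.Surjective P7_map := by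
  rintro ⟨T, x, hx, h1, hT⟩
  refine ⟨⟨x, hx⟩, ?_⟩
  apply Subtype.ext
  funext i j
  change x i * (starRingEnd ℂ) (x j) / ((∑ k, ‖x k‖ ^ 2 : ℝ) : ℂ) = T i j
  rw [h1, hT]
  simp

/-- hk:P7 -/
theorem P7 : ConnectedSpace X0 := by
  have h1 : IsPathConnected (Cone : Set (Fin 6 → ℂ)) := by
    obtain ⟨x, hx⟩ := P7_cone_nonempty
    exact ⟨x, hx, fun {y} hy => P7_joined hx hy⟩
  have : ConnectedSpace (Cone : Set (Fin 6 → ℂ)) :=
    isConnected_iff_connectedSpace.mp h1.isConnected
  exact P7_map_surj.connectedSpace P7_map_cont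

end Pool.Agent.helper62.K3
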